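import Pool.Agent.H547.CW.Stm

set_option autoImplicit false

/-!
# CW64 (helper547): `S_T`
-/

namespace Pool.Agent.H387.CW64

open Finset Pool.Agent.R439.PL Pool.Agent.H547.CW
open scoped Nat

variable {p : ℕ} [hp : Fact p.Prime]

/-- approximation by natural numbers -/
theorem approx {y : ℚ} (hy : y ∈ Zp p) (e : ℕ) : ∃ n : ℕ, I p e (y - n) := by
  obtain ⟨a, b, hb, rfl⟩ := hy
  have hb0 : (b : ℚ) ≠ 0 := by
    intro h; apply hb; have : b = 0 := by exact_mod_cast h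
    rw [this]; exact dvd_zero _
  have hcop : IsCoprime b ((p : ℤ) ^ e) :=
    IsCoprime.pow_right ((Prime.coprime_iff_not_dvd (pz (p := p))).2 hb).symm
  obtain ⟨c, d, hcd⟩ := hcop
  have hpe : (0 : ℤ) < (p : ℤ) ^ e := pow_pos (by exact_mod_cast hp.out.pos) e
  obtain ⟨n, hn⟩ := Int.eq_ofNat_of_zero_le (Int.emod_nonneg (a * c) hpe.ne')
  have h1 := Int.mul_ediv_add_emod (a * c) ((p : ℤ) ^ e)
  rw [hn] at h1
  obtain ⟨q, hq⟩ : ∃ q : ℤ, q = a * c / (p : ℤ) ^ e := ⟨_, rfl⟩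
  rw [← hq] at h1
  refine ⟨n, ((a * d + q * b : ℤ) : ℚ) / b, ⟨a * d + q * b, b, hb, rfl⟩, ?_⟩
  have h2 : ((p : ℚ) ^ e * q + n : ℚ) = a * c := by exact_mod_cast h1
  have h3 : (c * b + d * (p : ℚ) ^ e : ℚ) = 1 := by exact_mod_cast hcd
  push_cast
  field_simp
  linear_combination (-(b : ℚ)) * h2 + (-(a : ℚ)) * h3

/-- the rising factorial divided by the factorial is integral -/
theorem po_div_mem {y : ℚ} (hy : y ∈ Zp p) (k : ℕ) : po y k / (k ! : ℚ) ∈ Zp p := by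
  obtain ⟨e, u, hu, hku⟩ := Nat.exists_eq_pow_mul_and_not_dvd (Nat.factorial_ne_zero k) p
    hp.out.ne_one
  obtain ⟨n, hn⟩ := approx hy e
  have hnm : (n : ℚ) ∈ Zp p := nat_mem n
  have h1 : EQ p e (po y k) (po n k) := by
    unfold po
    refine EQ.prod fun i _ => ?_
    exact (show EQ p e y n from ⟨hy, hnm, hn⟩).add (EQ.refl (nat_mem i))
  obtain ⟨z, hz, hz2⟩ := h1.2.2
  have hpo : ∃ t : ℕ, po (n : ℚ) k = (k ! : ℚ) * t := by
    obtain ⟨t, ht⟩ := Nat.factorial_dvd_ascFactorial n k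
    refine ⟨t, ?_⟩
    rw [Nat.ascFactorial_eq_prod_range] at ht
    unfold po
    exact_mod_cast ht
  obtain ⟨t, ht⟩ := hpo
  have hk0 : (k ! : ℚ) ≠ 0 := by exact_mod_cast Nat.factorial_ne_zero k
  have hu0 : (u : ℚ) ≠ 0 := by
    intro h
    have h2 : u = 0 := by exact_mod_cast h
    rw [h2] at hu
    exact hu (dvd_zero p)
  have hk1 : (k ! : ℚ) = (p : ℚ) ^ e * u := by exact_mod_cast hku
  have huU : U p (u : ℚ) := by
    have h2 : ¬ (p : ℤ) ∣ (u : ℤ) := by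
      intro h3
      exact hu (Int.natCast_dvd_natCast.1 h3)
    exact_mod_cast U_int h2
  have h3 : po y k / (k ! : ℚ) = z / u + t := by
    have h4 : po y k = (p : ℚ) ^ e * z + (k ! : ℚ) * t := by
      rw [← ht, ← hz2]; ring
    rw [h4, add_div, mul_div_cancel_left₀ _ hk0, hk1,
      mul_div_mul_left _ _ (pow_ne_zero _ (p_ne (p := p)))]
  rw [h3]
  refine add_mem ?_ (nat_mem t)
  rw [div_eq_mul_inv]
  exact mul_mem hz huU.2.2

theorem T : S_T := by
  intro p M hp hpM k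
  have h4 : ¬ (p : ℤ) ∣ 4 := by
    intro h
    have h1 : p ∣ 4 := by exact_mod_cast h
    have h2 : p ≤ 4 := Nat.le_of_dvd (by norm_num) h1
    have h3 : p = 3 := by omega
    rw [h3] at h1
    omega
  have h2 : ¬ (p : ℤ) ∣ 2 := by
    intro h
    apply h4
    exact h.trans (by norm_num)
  have hhalf : (1 / 2 : ℚ) ∈ Zp p := ⟨1, 2, h2, by norm_num⟩
  -- the value of `tau`
  have hnum : I p 1 (po (3 / 4) (M + 1)) := by
    unfold po
    rw [prod_range_succ]
    refine I.mulL (prod_mem fun i _ => ?_) ?_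
    · exact ⟨4 * i + 3, 4, h4, by push_cast; ring⟩
    · refine ⟨1 / 4, ⟨1, 4, h4, by norm_num⟩, ?_⟩
      have h5 : (p : ℚ) = 4 * M + 3 := by exact_mod_cast hpM
      rw [h5]; ring
  have hden : U p (po (1 / 4) (M + 1)) := by
    unfold po
    refine U.prod fun i hi => ?_
    rw [mem_range] at hi
    have h5 : (1 / 4 : ℚ) + i = ((4 * i + 1 : ℤ) : ℚ) / (4 : ℤ) := by push_cast; ring
    rw [h5]
    refine U_rat ?_ h4
    intro h6
    have h7 : p ∣ 4 * i + 1 := by exact_mod_cast h6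
    have h8 := Nat.le_of_dvd (by omega) h7
    omega
  have hq : I p 1 (po (3 / 4) (M + 1) / po (1 / 4) (M + 1)) := by
    rw [div_eq_mul_inv]
    exact hnum.mulR hden.2.2
  have htau : I p 2 (tau (M + 1)) := by
    unfold tau
    rw [sq]
    exact hq.mul hq
  have hs : (2 * ((M + 1 : ℕ) : ℚ)) ∈ Zp p := by
    have := nat_mem (p := p) (2 * (M + 1))
    push_cast at this ⊢
    exact this
  have hf : f (M + 1) k = tau (M + 1) * ((po (1 / 2 + 2 * ((M + 1 : ℕ) : ℚ)) k / (k ! : ℚ)) *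
      (po (1 / 2 - 2 * ((M + 1 : ℕ) : ℚ)) k / (k ! : ℚ)) * (po (1 / 2) k / (k ! : ℚ))) := by
    unfold f
    ring
  rw [hf]
  refine htau.mulR (mul_mem (mul_mem ?_ ?_) ?_)
  · exact po_div_mem (add_mem hhalf hs) k
  · exact po_div_mem (sub_mem hhalf hs) k
  · exact po_div_mem hhalf k

end Pool.Agent.H387.CW64
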